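import Mathlib

/-! # MP_e487d8_al: the definitions used in the statement

Graded modules over the KLR algebras (quiver Hecke algebras) `R(n) = ⊕_{|β| = n} R(β)` of a
symmetrisable generalised Cartan matrix, their convolution products, adapted modules, stably
irreducible families. A module over `R(n)` is given by the operators of the generators. -/

set_option autoImplicit false

namespace Pool.Agent.KLS

/-- A symmetrisable generalised Cartan matrix `A i j = ⟨h_i, α_j⟩` with a symmetrizer `d`, so that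
`(α_i, α_j) = d i * A i j`, together with the KLR parameters `Q_{ij}(u,v) = ∑ Q i j p q u^p v^q`
(for `i ≠ j`), homogeneous if `u` has the degree `(α_i, α_i) = 2 d i` and `v` the degree `2 d j`. -/
structure Datum (K I : Type) [Field K] where
  A : I → I → ℤ
  diag : ∀ i, A i i = 2
  nonpos : ∀ i j, i ≠ j → A i j ≤ 0
  d : I → ℕ
  d_pos : ∀ i, 0 < d i
  symm : ∀ i j, (d i : ℤ) * A i j = d j * A j i
  Q : I → I → ℕ → ℕ → K
  Q_symm : ∀ i j p q, i ≠ j → Q i j p q = Q j i q p
  Q_hom : ∀ i j p q, i ≠ j → Q i j p q ≠ 0 → (d i : ℤ) * p + d j * q = - (d i * A i j)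
  Q_lead : ∀ i j, i ≠ j → Q i j (A i j).natAbs 0 ≠ 0

/-- the degree `-A i j` of `Q_{ij}(u, v)` in `u` -/
def Datum.nq {K I : Type} [Field K] (D : Datum K I) (i j : I) : ℕ := (D.A i j).natAbs

namespace St

variable {K I : Type} [Field K] [Fintype I] [DecidableEq I]

/-- A module over the KLR algebra `R(n)`. The strands are numbered `0, 1, ..., n - 1`. The
operator `e k i` is the sum of the idempotents `e(ν)` with `ν_k = i`, `x k` is the dot on the
strand `k` and `t k` is the crossing `τ_k` of the strands `k` and `k + 1`; operators with a number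
out of range are zero. A vector `u` with `e k i u = u` has the colour `i` at the strand `k`. -/
structure Mod (D : Datum K I) : Type 1 where
  n : ℕ
  M : Type
  [acg : AddCommGroup M]
  [modK : Module K M]
  e : ℕ → I → M → M
  x : ℕ → M → M
  t : ℕ → M → M
  e_lin : ∀ k i, IsLinearMap K (e k i)
  x_lin : ∀ k, IsLinearMap K (x k)
  t_lin : ∀ k, IsLinearMap K (t k)
  sum_e : ∀ k u, k < n → ∑ i, e k i u = u
  e_out : ∀ k i u, n ≤ k → e k i u = 0
  x_out : ∀ k u, n ≤ k → x k u = 0
  t_out : ∀ k u, n ≤ k + 1 → t k u = 0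
  ee : ∀ k i j u, e k i (e k j u) = if i = j then e k i u else 0
  ee_comm : ∀ k l i j u, e k i (e l j u) = e l j (e k i u)
  xx : ∀ k l u, x k (x l u) = x l (x k u)
  xe : ∀ k l i u, x k (e l i u) = e l i (x k u)
  te0 : ∀ k i u, t k (e k i u) = e (k + 1) i (t k u)
  te1 : ∀ k i u, t k (e (k + 1) i u) = e k i (t k u)
  te : ∀ k l i u, l ≠ k → l ≠ k + 1 → t k (e l i u) = e l i (t k u)
  tx : ∀ k l u, l ≠ k → l ≠ k + 1 → t k (x l u) = x l (t k u)
  tx0 : ∀ k i j u, e k i u = u → e (k + 1) j u = u →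
    x (k + 1) (t k u) - t k (x k u) = if i = j then u else 0
  tx1 : ∀ k i j u, e k i u = u → e (k + 1) j u = u →
    t k (x (k + 1) u) - x k (t k u) = if i = j then u else 0
  tt : ∀ k i j u, e k i u = u → e (k + 1) j u = u →
    t k (t k u) = if i = j then 0 else
      ∑ p ∈ Finset.range (D.nq i j + 1), ∑ q ∈ Finset.range (D.nq j i + 1),
        D.Q i j p q • (x k)^[p] ((x (k + 1))^[q] u)
  far : ∀ k l u, k + 1 < l → t k (t l u) = t l (t k u)
  braid : ∀ k i j l u, e k i u = u → e (k + 1) j u = u → e (k + 2) l u = u →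
    t (k + 1) (t k (t (k + 1) u)) - t k (t (k + 1) (t k u)) =
      if i = l ∧ i ≠ j then
        ∑ p ∈ Finset.range (D.nq i j + 1), ∑ q ∈ Finset.range (D.nq j i + 1),
          D.Q i j p q • ∑ r ∈ Finset.range p,
            (x k)^[r] ((x (k + 2))^[p - 1 - r] ((x (k + 1))^[q] u))
      else 0

attribute [instance] Mod.acg Mod.modK

/-- A finite dimensional graded module over `R(n)`: the `e k i` have degree `0`, the dot on a strand
of colour `i` has the degree `(α_i, α_i) = 2 d i`, the crossing of a strand of colour `i` and a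
strand of colour `j` has degree `- (α_i, α_j)`. `gr d` is the space of the homogeneous vectors of
degree `d`. -/
structure GMod (D : Datum K I) : Type 1 extends Mod D where
  fin : Module.Finite K M
  gr : ℤ → Submodule K M
  internal : DirectSum.IsInternal gr
  e_gr : ∀ k i d u, u ∈ gr d → e k i u ∈ gr d
  x_gr : ∀ k i d u, u ∈ gr d → e k i u = u → x k u ∈ gr (d + 2 * D.d i)
  t_gr : ∀ k i j d u, u ∈ gr d → e k i u = u → e (k + 1) j u = u →
    t k u ∈ gr (d - D.d i * D.A i j)

variable {D : Datum K I}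

/-- `f` is a homomorphism of modules -/
structure IsHom (X Y : Mod D) (f : X.M → Y.M) : Prop where
  lin : IsLinearMap K f
  e : ∀ k i u, f (X.e k i u) = Y.e k i (f u)
  x : ∀ k u, f (X.x k u) = Y.x k (f u)
  t : ∀ k u, f (X.t k u) = Y.t k (f u)

/-- `f : X × Y → W` is bilinear, the strands `0, ..., X.n - 1` of `W` act on `X` and the following
strands act on `Y` -/
structure Balanced (X Y W : Mod D) (f : X.M → Y.M → W.M) : Prop where
  lin_left : ∀ v, IsLinearMap K fun u => f u v
  lin_right : ∀ u, IsLinearMap K (f u)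
  e_left : ∀ k i u v, k < X.n → W.e k i (f u v) = f (X.e k i u) v
  x_left : ∀ k u v, k < X.n → W.x k (f u v) = f (X.x k u) v
  t_left : ∀ k u v, k + 1 < X.n → W.t k (f u v) = f (X.t k u) v
  e_right : ∀ k i u v, W.e (X.n + k) i (f u v) = f u (Y.e k i v)
  x_right : ∀ k u v, W.x (X.n + k) (f u v) = f u (Y.x k v)
  t_right : ∀ k u v, W.t (X.n + k) (f u v) = f u (Y.t k v)

/-- `f : X × Y → Z` is the universal balanced map, so `Z` is the induced module
`R(m + n) ⊗_{R(m) ⊗ R(n)} (X ⊗ Y)` -/
structure IsInduced (X Y Z : Mod D) (f : X.M → Y.M → Z.M) : Prop where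
  strands : Z.n = X.n + Y.n
  balanced : Balanced X Y Z f
  universal : ∀ (W : Mod D) (g : X.M → Y.M → W.M), W.n = X.n + Y.n → Balanced X Y W g →
    ∃! h : Z.M → W.M, IsHom Z W h ∧ ∀ u v, h (f u v) = g u v

namespace GMod

/-- irreducible graded module: nonzero, without proper nonzero graded submodules -/
structure Irr (X : GMod D) : Prop where
  nontrivial : Nontrivial X.M
  simple : ∀ N : Submodule K X.M, (∀ k i, ∀ u ∈ N, X.e k i u ∈ N) → (∀ k, ∀ u ∈ N, X.x k u ∈ N) →
    (∀ k, ∀ u ∈ N, X.t k u ∈ N) → N ≤ ⨆ d, N ⊓ X.gr d → N = ⊥ ∨ N = ⊤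

/-- isomorphic up to a shift of the grading -/
def ShiftIso (X Y : GMod D) : Prop :=
  X.n = Y.n ∧ ∃ (s : ℤ) (f : X.M → Y.M), Function.Bijective f ∧ IsHom X.toMod Y.toMod f ∧
    ∀ d u, u ∈ X.gr d → f u ∈ Y.gr (d + s)

/-- `Z` is isomorphic up to a shift of the grading to the convolution product `X ∘ Y`, in which
the class of `u ⊗ v` has the degree `deg u + deg v` -/
def IsConv (X Y Z : GMod D) : Prop :=
  ∃ (s : ℤ) (f : X.M → Y.M → Z.M), IsInduced X.toMod Y.toMod Z.toMod f ∧
    ∀ a b u v, u ∈ X.gr a → v ∈ Y.gr b → f u v ∈ Z.gr (a + b + s)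

/-- `IsProd [X_1, ..., X_r] Z`: `Z` is isomorphic up to a shift to `X_1 ∘ (X_2 ∘ ... ∘ X_r)`
(`r ≥ 1`) -/
inductive IsProd : List (GMod D) → GMod D → Prop
  | single (X Z : GMod D) : X.ShiftIso Z → IsProd [X] Z
  | cons (X Y Z : GMod D) (l : List (GMod D)) : IsProd l Y → X.IsConv Y Z → IsProd (X :: l) Z

end GMod

/-- the word `i_1^{a_1} i_2^{a_2} ... i_m^{a_m}` -/
def powWord {I : Type} : List I → List ℕ → List I
  | i :: w, a :: as => List.replicate a i ++ powWord w as
  | _, _ => []

/-- `X` is adapted to the word `w = i_1 i_2 ... i_m`: the Feigin homomorphism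
`Ψ_w(f) = ∑_a f(θ_{i_1}^{(a_1)} ⋯ θ_{i_m}^{(a_m)}) t_1^{a_1} ⋯ t_m^{a_m}` does not kill the
character of `X`, that is, `e(i_1^{a_1} ⋯ i_m^{a_m}) X ≠ 0` for some `a_1, ..., a_m` -/
def GMod.Adapted (w : List I) (X : GMod D) : Prop :=
  ∃ a : List ℕ, a.length = w.length ∧ (powWord w a).length = X.n ∧
    ∃ u : X.M, u ≠ 0 ∧ ∀ k i, (powWord w a)[k]? = some i → X.e k i u = u

/-- a stably irreducible family of `w`-adapted irreducible modules of `R(n)`, `n ≥ 1` -/
structure IsFamily (w : List I) (L : Set (GMod D)) : Prop where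
  pos : ∀ X ∈ L, 0 < X.n
  irr : ∀ X ∈ L, X.Irr
  adapted : ∀ X ∈ L, X.Adapted w
  conv : ∀ X ∈ L, ∀ Y ∈ L, ∃ Z ∈ L, X.IsConv Y Z

/-- a maximal stably irreducible family of `w`-adapted irreducible modules -/
structure IsMaxFamily (w : List I) (L : Set (GMod D)) : Prop extends IsFamily w L where
  max : ∀ L', IsFamily w L' → L ⊆ L' → L' = L

/-- the atomic members of a family -/
def atoms (L : Set (GMod D)) : Set (GMod D) :=
  {X | X ∈ L ∧ ¬ ∃ Y ∈ L, ∃ Z ∈ L, Y.IsConv Z X}

/-- each member of `L` is isomorphic up to a shift to a product of members of `P` -/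
def Generates (P L : Set (GMod D)) : Prop :=
  ∀ X ∈ L, ∃ l : List (GMod D), (∀ Y ∈ l, Y ∈ P) ∧ GMod.IsProd l X

/-- `L` is `k`-generated: there is a minimal set `P` of atomic members which generates `L`, and it
has `k` elements -/
def IsGenerated (k : ℕ) (L : Set (GMod D)) : Prop :=
  ∃ P : Set (GMod D), P.Finite ∧ P.ncard = k ∧ P ⊆ atoms L ∧ Generates P L ∧
    ∀ Q, Q ⊆ P → Generates Q L → Q = P

/-- `L` is, up to isomorphism and shifts, the free commutative monoid (without its unit element) on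
the set `P`, and the members of `P` are representatives of the atomic members of `L` up to
isomorphism and shifts -/
structure IsFreeOn (P L : Set (GMod D)) : Prop where
  atom : P ⊆ atoms L
  atoms_eq : ∀ X ∈ atoms L, ∃! Y, Y ∈ P ∧ X.ShiftIso Y
  gen : Generates P L
  comm : ∀ (X : GMod D) (l l' : List (GMod D)), (∀ Y ∈ l, Y ∈ P) → l.Perm l' →
    GMod.IsProd l X → GMod.IsProd l' X
  uniq : ∀ (X : GMod D) (l l' : List (GMod D)), (∀ Y ∈ l, Y ∈ P) → (∀ Y ∈ l', Y ∈ P) →
    GMod.IsProd l X → GMod.IsProd l' X → l.Perm l'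
  all : ∀ l : List (GMod D), l ≠ [] → (∀ Y ∈ l, Y ∈ P) → ∃ X ∈ L, GMod.IsProd l X

/-- the simple reflection `s_i(β) = β - ⟨h_i, β⟩ α_i` on the root lattice -/
def refl (A : I → I → ℤ) (i : I) (β : I → ℤ) : I → ℤ :=
  fun j => if j = i then β j - ∑ l, A i l * β l else β j

/-- the product of the simple reflections of a word -/
def prodRefl (A : I → I → ℤ) : List I → (I → ℤ) → I → ℤ
  | [], β => β
  | i :: w, β => refl A i (prodRefl A w β)

/-- reduced word of an element of the Weyl group: there is no shorter word with the same product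
of simple reflections -/
def Reduced (A : I → I → ℤ) (w : List I) : Prop :=
  ∀ w' : List I, (∀ β, prodRefl A w' β = prodRefl A w β) → w.length ≤ w'.length

end St

end Pool.Agent.KLS
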