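import Pool.Agent.Work.MP_e487d8_al.Bd.B46
import Pool.Agent.Work.MP_e487d8_al.Bd.B45

/-! MP_e487d8_al: the final theorem in the terms of `Stmt.lean`, for all symmetrizable types. -/

set_option autoImplicit false

namespace Pool.Agent.KLS.St

/-- every maximal stably irreducible family of `w`-adapted irreducible modules is free on exactly
`m` atomic members -/
theorem final {K I : Type} [Field K] [Fintype I] [DecidableEq I] (D : Datum K I)
    (w : List I) (hw : Reduced D.A w) (L : Set (GMod D)) (hL : IsMaxFamily w L) :
    IsGenerated w.length L ∧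
      ∃ P : Set (GMod D), P.Finite ∧ P.ncard = w.length ∧ IsFreeOn P L := by
  have hb := basis D
  have hC := cFacts hb
  have hconv : S_conv D := fun m n M N _ _ _ _ _ _ _ _ hM hN => Conv.fdMod_chrQ hb hM hN
  exact final_of_gr hb hC hconv ((Gk.gkIn hb hC).toGrPart (hconv := hconv)
    (In.facts hb hC hconv).mir) w hw L hL

end Pool.Agent.KLS.St
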